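import Pool.Agent.MP_fcd29e_an.H11.CS

/-!
Charts at infinity.
-/

set_option autoImplicit false
set_option linter.unusedSectionVars false

open Complex Set Filter Topology Metric Pool.Agent.MP_fcd29e_an.H11
open scoped ContDiff

namespace Pool.Agent.MP_fcd29e_an.H70

namespace CX3

noncomputable section

theorem an_pi {β X Y : Type} [Fintype β] [NormedAddCommGroup X] [NormedSpace ℂ X]
    [NormedAddCommGroup Y] [NormedSpace ℂ Y] {f : β → ℂ → X →L[ℂ] Y} {z₀ : ℂ}
    (h : ∀ b, AnalyticAt ℂ (f b) z₀) :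
    AnalyticAt ℂ (fun z => ContinuousLinearMap.pi fun b => f b z) z₀ := by
  classical
  have h1 : (fun z => ContinuousLinearMap.pi fun b => f b z) = fun z => ∑ b,
      ContinuousLinearMap.compL ℂ X Y (β → Y) (ContinuousLinearMap.single ℂ (fun _ => Y) b)
        (f b z) := by
    funext z
    ext x b
    simp [Finset.sum_apply, Pi.single_apply]
  rw [h1]
  exact Finset.analyticAt_fun_sum _ fun b _ => (ContinuousLinearMap.analyticAt _ _).comp (h b)

variable {r m : ℕ} [NeZero m]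

/-- The passage from the block at infinity to the block `A`. -/
def Dp (r m : ℕ) (u : ℂ) : EV (Fin r) := u ^ (4 * m) • Q0 + Qp + u ^ (8 * m) • Qm

/-- The inverse of `Dp`, up to a scalar. -/
def Dm (r m : ℕ) (u : ℂ) : EV (Fin r) := u ^ (4 * m) • Q0 + u ^ (8 * m) • Qp + Qm

/-- A coordinate of the last block. -/
def pk (k : Fin r) : V (Fin r) →L[ℂ] ℂ :=
  (ContinuousLinearMap.proj k).comp ((ContinuousLinearMap.snd ℂ (Fin r → ℂ) (Fin r → ℂ)).comp
    (ContinuousLinearMap.snd ℂ ℂ _))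

theorem pk_apply (k : Fin r) (v : V (Fin r)) : pk k v = v.2.2 k := rfl

theorem Dp_apply (hGR : SGR) (u : ℂ) (v : V (Fin r)) :
    Dp r m u v = (u ^ (4 * m) * v.1, v.2.1, u ^ (8 * m) • v.2.2) := by
  obtain ⟨h0, hp, hm, -⟩ := hGR.blk (Fin r) v 1
  simp [Dp, h0, hp, hm]

theorem Dm_apply (hGR : SGR) (u : ℂ) (v : V (Fin r)) :
    Dm r m u v = (u ^ (4 * m) * v.1, u ^ (8 * m) • v.2.1, v.2.2) := by
  obtain ⟨h0, hp, hm, -⟩ := hGR.blk (Fin r) v 1
  simp [Dm, h0, hp, hm]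

theorem Dp_Dm (hGR : SGR) (u : ℂ) (v : V (Fin r)) :
    Dp r m u (Dm r m u v) = u ^ (8 * m) • v := by
  rw [Dm_apply hGR, Dp_apply hGR]
  refine Prod.ext ?_ rfl
  show u ^ (4 * m) * (u ^ (4 * m) * v.1) = u ^ (8 * m) * v.1
  ring

theorem an_Dp {u : ℂ → ℂ} {z₀ : ℂ} (h : AnalyticAt ℂ u z₀) :
    AnalyticAt ℂ (fun z => Dp r m (u z)) z₀ :=
  (((h.fun_pow _).fun_smul analyticAt_const).fun_add analyticAt_const).fun_add
    ((h.fun_pow _).fun_smul analyticAt_const)

theorem an_Dm {u : ℂ → ℂ} {z₀ : ℂ} (h : AnalyticAt ℂ u z₀) :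
    AnalyticAt ℂ (fun z => Dm r m (u z)) z₀ :=
  (((h.fun_pow _).fun_smul analyticAt_const).fun_add
    ((h.fun_pow _).fun_smul analyticAt_const)).fun_add analyticAt_const

variable (c S : ℝ) (om : Fin m → Fin r → ℂ) (F : ℂ → EV (Fin r))

/-- The passage from the block `A` to the block at a pole. -/
def Cj (j : Fin m) (a : ℂ) : EV (Fin r) :=
  (a ^ 2 • Pp c S (om j) + a • P0 c S (om j) + Pm c S (om j)) * Ring.inverse (F (tp j))

/-- All blocks from the block at infinity. -/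
def blk (s : Option (Fin m) → ℂ) (M : EV (Fin r)) : Bk m → EV (Fin r)
  | none => Dp r m (s none / s (some 0)) * M
  | some none => M
  | some (some j) => Cj c S om F j (s none / s (some j)) * (Dp r m (s none / s (some 0)) * M)

/-- The first family of sections. -/
def wa (s : Option (Fin m) → ℂ) (M : EV (Fin r)) (k : Fin r) : V (Fin r) →L[ℂ] ℂ :=
  (s (some 0) ^ (8 * m))⁻¹ • (pk k).comp M

/-- All sections. -/
def wb (s : Option (Fin m) → ℂ) (M : EV (Fin r)) : Wi r m → (V (Fin r) →L[ℂ] ℂ)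
  | (none, k) => wa s M k
  | (some (j, l), k) => (s none / s (some j)) • ((F (tp j) (em c S (om j))).2.2 l • wa s M k -
      (F (tp j) (em c S (om j))).2.2 k • wa s M l)

theorem an_blk {s : ℂ → Option (Fin m) → ℂ} {M : ℂ → EV (Fin r)} {z₀ : ℂ}
    (hs : AnalyticAt ℂ s z₀) (h0 : ∀ j, s z₀ (some j) ≠ 0) (hM : AnalyticAt ℂ M z₀) (b : Bk m) :
    AnalyticAt ℂ (fun z => blk c S om F (s z) (M z) b) z₀ := by
  have h1 : ∀ o, AnalyticAt ℂ (fun z => s z o) z₀ := fun o => analyticAt_pi_iff.1 hs o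
  have h2 : ∀ j, AnalyticAt ℂ (fun z => s z none / s z (some j)) z₀ := fun j =>
    (h1 none).fun_div (h1 _) (h0 j)
  have h3 := (an_Dp (r := r) (m := m) (h2 0)).fun_mul hM
  rcases b with _ | _ | j
  · exact h3
  · exact hM
  · exact ((((((h2 j).fun_pow 2).fun_smul analyticAt_const).fun_add
      ((h2 j).fun_smul analyticAt_const)).fun_add analyticAt_const).fun_mul
        analyticAt_const).fun_mul h3

theorem an_wb {s : ℂ → Option (Fin m) → ℂ} {M : ℂ → EV (Fin r)} {z₀ : ℂ}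
    (hs : AnalyticAt ℂ s z₀) (h0 : ∀ j, s z₀ (some j) ≠ 0) (hM : AnalyticAt ℂ M z₀) (b : Wi r m) :
    AnalyticAt ℂ (fun z => wb c S om F (s z) (M z) b) z₀ := by
  have h1 : ∀ o, AnalyticAt ℂ (fun z => s z o) z₀ := fun o => analyticAt_pi_iff.1 hs o
  have h2 : ∀ k, AnalyticAt ℂ (fun z => wa (s z) (M z) k) z₀ := fun k =>
    (((h1 _).fun_pow _).fun_inv (pow_ne_zero _ (h0 0))).fun_smul
      (((ContinuousLinearMap.compL ℂ (V (Fin r)) (V (Fin r)) ℂ (pk k)).analyticAt _).comp hM)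
  rcases b with ⟨_ | ⟨j, l⟩, k⟩
  · exact h2 k
  · exact ((h1 none).fun_div (h1 _) (h0 j)).fun_smul
      ((analyticAt_const.fun_smul (h2 k)).fun_sub (analyticAt_const.fun_smul (h2 l)))

theorem prj_Cj (hGR : SGR) {j : Fin m} (hax : Ax c S (om j)) (a : ℂ) (v : V (Fin r)) :
    Pp c S (om j) (Cj c S om F j a v) = a ^ 2 • Pp c S (om j) (Ring.inverse (F (tp j)) v) ∧
    P0 c S (om j) (Cj c S om F j a v) = a • P0 c S (om j) (Ring.inverse (F (tp j)) v) ∧
    Pm c S (om j) (Cj c S om F j a v) = Pm c S (om j) (Ring.inverse (F (tp j)) v) := by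
  obtain ⟨h1, h2, h3, h4, h5, h6, h7, h8, h9⟩ := hGR.prj (Fin r) c S (om j) hax
  have h : ∀ {P P' R : EV (Fin r)}, P * P' = R → ∀ y, P (P' y) = R y := fun e y => by
    rw [← e]
    rfl
  have h0 : Cj c S om F j a v = a ^ 2 • Pp c S (om j) (Ring.inverse (F (tp j)) v) +
      a • P0 c S (om j) (Ring.inverse (F (tp j)) v) +
        Pm c S (om j) (Ring.inverse (F (tp j)) v) := rfl
  rw [h0]
  refine ⟨?_, ?_, ?_⟩ <;>
    simp only [map_add, map_smul, h h1, h h2, h h3, h h4, h h5, h h6, h h7, h h8, h h9,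
      zero_apply, smul_zero, add_zero, zero_add]

theorem relE (hGR : SGR) (hax : ∀ j, Ax c S (om j)) {s : Option (Fin m) → ℂ}
    (h0 : ∀ j, s (some j) ≠ 0) (M : EV (Fin r)) (x : V (Fin r)) :
    RelE c S om F s fun b => blk c S om F s M b x := by
  have hA : blk c S om F s M none x = Dp r m (s none / s (some 0)) (M x) := rfl
  have hB : blk c S om F s M (some none) x = M x := rfl
  have hC : ∀ j, blk c S om F s M (some (some j)) x =
      Cj c S om F j (s none / s (some j)) (Dp r m (s none / s (some 0)) (M x)) := fun _ => rfl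
  have h00 := h0 0
  refine ⟨?_, ?_, ?_, fun j => ?_⟩ <;> beta_reduce
  · rw [hA, hB, Dp_apply hGR, (hGR.blk _ _ 1).1, (hGR.blk _ _ 1).1]
    refine Prod.ext ?_ (by simp)
    simp only [Prod.smul_mk, smul_eq_mul, div_pow]
    field_simp
  · rw [hA, hB, Dp_apply hGR, (hGR.blk _ _ 1).2.1, (hGR.blk _ _ 1).2.1]
  · rw [hA, hB, Dp_apply hGR, (hGR.blk _ _ 1).2.2.1, (hGR.blk _ _ 1).2.2.1]
    simp only [Prod.smul_mk, smul_zero, smul_smul, div_pow]
    rw [mul_div_cancel₀ _ (pow_ne_zero _ h00)]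
  · obtain ⟨h1, h2, h3⟩ := prj_Cj c S om F hGR (hax j) (s none / s (some j))
      (Dp r m (s none / s (some 0)) (M x))
    rw [hA, hC, h1, h2, h3, smul_smul, smul_smul, div_pow,
      mul_div_cancel₀ _ (pow_ne_zero _ (h0 j)), mul_div_cancel₀ _ (h0 j)]
    exact ⟨rfl, rfl, rfl⟩

theorem relW (hGR : SGR) (hax : ∀ j, Ax c S (om j)) (hF : ∀ j : Fin m, Orth (F (tp j)))
    {s : Option (Fin m) → ℂ} (h0 : ∀ j, s (some j) ≠ 0) (M : EV (Fin r)) (x : V (Fin r)) :
    RelW c S om F s (fun b => blk c S om F s M b x) fun i => wb c S om F s M i x := by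
  have hA : blk c S om F s M none x = Dp r m (s none / s (some 0)) (M x) := rfl
  have hB : blk c S om F s M (some none) x = M x := rfl
  have hC : ∀ j, blk c S om F s M (some (some j)) x =
      Cj c S om F j (s none / s (some j)) (Dp r m (s none / s (some 0)) (M x)) := fun _ => rfl
  have hW : ∀ k, wb c S om F s M (none, k) x = (s (some 0) ^ (8 * m))⁻¹ * (M x).2.2 k :=
    fun _ => rfl
  have hW' : ∀ j l k, wb c S om F s M (some (j, l), k) x = s none / s (some j) *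
      ((F (tp j) (em c S (om j))).2.2 l * ((s (some 0) ^ (8 * m))⁻¹ * (M x).2.2 k) -
        (F (tp j) (em c S (om j))).2.2 k * ((s (some 0) ^ (8 * m))⁻¹ * (M x).2.2 l)) :=
    fun _ _ _ => rfl
  have h00 := h0 0
  refine ⟨fun k => ⟨?_, ?_⟩, fun j l k => ⟨?_, ?_⟩⟩ <;> beta_reduce
  · rw [hA, hW, Dp_apply hGR]
    simp only [Pi.smul_apply, smul_eq_mul, div_pow]
    field_simp
  · rw [hB, hW]
    field_simp
  · have hj := h0 j
    simp only [mnr, hW, hW']
    field_simp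
  · have hj := h0 j
    obtain ⟨h1, h2, -⟩ := prj_Cj c S om F hGR (hax j) (s none / s (some j))
      (Dp r m (s none / s (some 0)) (M x))
    rw [hW', hC, h1, h2]
    generalize hy : Ring.inverse (F (tp j)) (Dp r m (s none / s (some 0)) (M x)) = y
    have h3 : F (tp j) y = Dp r m (s none / s (some 0)) (M x) := by
      have h4 := Ring.mul_inverse_cancel _ ((hGR.op (Fin r)).2.2.2.2 _ (hF j)).1
      rw [← hy]
      exact congrArg (fun P : EV (Fin r) => P (Dp r m (s none / s (some 0)) (M x))) h4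
    have h5 : P0 c S (om j) y = y - Pp c S (om j) y - (B y (ep c S (om j)) / 2) • em c S (om j) := by
      rw [← ((hGR.vec (Fin r) c S (om j) (hax j)).2.2.2.2.2.2.2.2 y).2.1]
      rfl
    rw [h5]
    simp only [mnr, map_add, map_smul, map_sub, h3, Dp_apply hGR, Prod.snd_add, Prod.snd_sub,
      Prod.smul_snd, Pi.add_apply, Pi.sub_apply, Pi.smul_apply, smul_eq_mul, div_pow]
    field_simp
    ring

end

end CX3

open CX3 in
/-- Charts at infinity. -/
theorem sx3 (hLV : SLV) (hGR : SGR) (hXU : SXU) (hX0 : SX0) : SX3 := by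
  intro r m n _ C c S om F Fi Fr fc fi fh hn hR hFr hPh s z₀ hs hX hI hz
  have hn1 : 1 ≤ n := by omega
  have h0 : ∀ j, s z₀ (some j) ≠ 0 := (hXU r m n hn1 _ hX.self_of_nhds).1 hz
  have h1 : ∀ o, AnalyticAt ℂ (fun z => s z o) z₀ := fun o => analyticAt_pi_iff.1 hs o
  obtain ⟨u, hu⟩ : ∃ u : ℂ → ℂ, u = fun z => s z none / s z (some 0) := ⟨_, rfl⟩
  have hua : AnalyticAt ℂ u z₀ := hu ▸ (h1 none).fun_div (h1 _) (h0 0)
  have hu0 : u z₀ = 0 := by simp [hu, hz]
  have hun : u z₀ ^ n = 0 := by rw [hu0, zero_pow (by omega)]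
  have hFi : AnalyticAt ℂ Fi 0 := hFr.inf.2 0 (by simp)
  have hXi : AnalyticAt ℂ (dslope Fi 0) 0 := by
    obtain ⟨p, hp⟩ := hFi
    exact hp.has_fpower_series_dslope_fslope.analyticAt
  obtain ⟨M, hM⟩ : ∃ M : ℂ → EV (Fin r), M = fun z => ((∏ i, s z (some i)) *
    s z (some 0) ^ (4 * m)) • (1 + u z ^ (n - 8 * m) •
      (Dm r m (u z) * (dslope Fi 0 (u z ^ n) * Dp r m (u z)))) := ⟨_, rfl⟩
  have hMa : AnalyticAt ℂ M z₀ := by
    rw [hM]
    refine ((Finset.analyticAt_fun_prod _ fun i _ => h1 _).fun_mul ((h1 _).fun_pow _)).fun_smul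
      (analyticAt_const.fun_add ((hua.fun_pow _).fun_smul ((an_Dm hua).fun_mul
        (AnalyticAt.fun_mul ?_ (an_Dp hua)))))
    exact AnalyticAt.comp (g := dslope Fi 0) (f := fun z => u z ^ n) (by rw [hun]; exact hXi)
      (hua.fun_pow n)
  have hF : ∀ j : Fin m, Orth (F (tp j)) := fun j => (hFr.an j _ (by simp)).2
  refine ⟨fun z => ContinuousLinearMap.pi fun b => blk c S om F (s z) (M z) b,
    fun z => ContinuousLinearMap.pi fun b => wb c S om F (s z) (M z) b,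
    fun q => fi (u q.1, q.2), an_pi (an_blk c S om F hs h0 hMa),
    an_pi (an_wb c S om F hs h0 hMa), ?_⟩
  have e1 : ∀ᶠ z in 𝓝 z₀, ∀ j, s z (some j) ≠ 0 :=
    eventually_all.2 fun j => (h1 _).continuousAt.eventually_ne (h0 j)
  have e2 : ∀ᶠ z in 𝓝 z₀, ((m : ℝ) + 2) * ‖u z ^ n‖ < 1 := by
    have h2 : ContinuousAt (fun z => ((m : ℝ) + 2) * ‖u z ^ n‖) z₀ :=
      continuousAt_const.mul (hua.fun_pow n).continuousAt.norm
    exact h2.eventually_lt continuousAt_const (by simp [hun])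
  have e3 := (hX0 r m n hn1 s z₀ hs hX hI).2.1 h0
  rw [← hu] at e3
  filter_upwards [e1, e2, e3, hua.eventually_analyticAt] with z z1 z2 z3 z4
  have huz : u z = s z none / s z (some 0) := by rw [hu]
  refine ⟨⟨fun x => ⟨relE c S om F hGR hR.ax z1 _ x, relW c S om F hGR hR.ax hF z1 _ x⟩,
    Or.inr (Or.inl ⟨1, (hGR.op _).1, z1 0, huz ▸ z2, fun hσ x => ?_, fun hσ x => ?_,
      fun x _ => by rw [huz]; rfl⟩)⟩, fun x hx => ?_⟩
  · have hune : u z ≠ 0 := huz ▸ div_ne_zero hσ (z1 0)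
    have h2 : s z (some 0) / s z none = (u z)⁻¹ := by rw [huz, inv_div]
    have h3 : (m : ℝ) + 1 < ‖(u z)⁻¹ ^ n‖ := by
      have h4 : 0 < ‖u z ^ n‖ := norm_pos_iff.2 (pow_ne_zero _ hune)
      rw [inv_pow, norm_inv, lt_inv_comm₀ (by positivity) h4, ← one_div,
        lt_div_iff₀ (by positivity)] <;> nlinarith
    have h4 := (hFr.ani _ h3).2.2
    rw [inv_pow, inv_inv] at h4
    have h5 : ∀ v, Fi (u z ^ n) v = v + u z ^ n • dslope Fi 0 (u z ^ n) v := fun v => by
      have h6 := sub_smul_dslope Fi 0 (u z ^ n)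
      rw [sub_zero, hFr.inf.1, eq_sub_iff_add_eq] at h6
      rw [← h6, add_comm]
      rfl
    have h6 : dg ((u z)⁻¹ ^ (4 * m)) x = (u z)⁻¹ ^ (4 * m) • Dp r m (u z) x := by
      rw [Dp_apply hGR, (hGR.blk _ x _).2.2.2]
      simp only [Prod.smul_mk, smul_eq_mul, smul_smul, inv_pow, inv_inv]
      rw [inv_mul_cancel_left₀ (pow_ne_zero _ hune)]
      congr 3
      field_simp
      ring
    have h7 : M z x = ((∏ i, s z (some i)) * s z (some 0) ^ (4 * m)) • (x + u z ^ (n - 8 * m) •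
        Dm r m (u z) (dslope Fi 0 (u z ^ n) (Dp r m (u z) x))) := by
      rw [hM]
      rfl
    show Dp r m (s z none / s z (some 0)) (M z x) = _ • F _ (dg _ x)
    rw [← huz, h2, h6, inv_pow (u z) n, ← h4, h7, map_smul, map_add, map_smul, Dp_Dm hGR, smul_smul,
      ← pow_add, Nat.sub_add_cancel (by omega), ← h5, map_smul, smul_smul, ← h2, div_pow, mul_assoc,
      mul_div_cancel₀ _ (pow_ne_zero _ hσ)]
  · have h2 : u z ^ (n - 8 * m) = 0 := by rw [huz, hσ, zero_div, zero_pow (by omega)]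
    have h7 : M z x = ((∏ i, s z (some i)) * s z (some 0) ^ (4 * m)) • (x + u z ^ (n - 8 * m) •
        Dm r m (u z) (dslope Fi 0 (u z ^ n) (Dp r m (u z) x))) := by
      rw [hM]
      rfl
    show M z x = _ • x
    rw [h7, h2, zero_smul, add_zero]
  · obtain ⟨h2, -, h3, -⟩ := hPh.far (u z) z2 x hx
    have h4 : ContDiffAt ℝ ∞ u z := z4.contDiffAt.restrict_scalars ℝ
    refine ⟨ContDiffAt.comp (g := fi) (f := fun q : ℂ × V (Fin r) => (u q.1, q.2)) _ h2
      ((h4.comp (z, x) contDiffAt_fst).prodMk contDiffAt_snd), ?_⟩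
    have h5 : ContDiffAt ℝ 2 (fun y => fi (y, x)) (u z) :=
      (ContDiffAt.comp (g := fi) (f := fun y : ℂ => (y, x)) _ h2
        (contDiffAt_id.prodMk contDiffAt_const)).of_le (WithTop.coe_le_coe.2 le_top)
    have h6 := hLV.one (fun y => fi (y, x)) u z z4 h5
    show lap (fun y => fi (u y, x)) z < 0
    rw [h6]
    exact mul_neg_of_pos_of_neg (pow_pos (norm_pos_iff.2 z3) 2) h3

end Pool.Agent.MP_fcd29e_an.H70
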