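import Pool.Agent.MP_fcd29e_an.H31.Spec3
import Pool.Agent.MP_fcd29e_an.H96.DIV

/-! The divergence equation with support on the concave side, real exponent (row DV1). -/

set_option autoImplicit false

namespace Pool.Agent.MP_fcd29e_an.H70

open MeasureTheory Complex Set Filter Topology Metric Pool.Agent.MP_fcd29e_an.H81
  Pool.Agent.MP_fcd29e_an.H31 Pool.Agent.MP_fcd29e_an.H96
open scoped ContDiff ComplexConjugate ENNReal NNReal

noncomputable section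

namespace DV1

variable {N : ℕ}

theorem rho_cont {ρ : E N → ℝ} (hρ : Dom ρ) {s : ℝ} (hs : 0 ≤ s) :
    ContinuousOn (fun z => ((ρ z ^ s : ℝ) : ℂ)) (E0 N) :=
  (continuous_ofReal.comp (Real.continuous_rpow_const hs)).comp_continuousOn
    hρ.smooth.continuousOn

theorem norm_wt {κ : ℝ → ℝ} (hκ : Kap κ) {ρ : E N → ℝ} (s : ℝ) (a : ℂ) {z : E N}
    (hz : 0 < ρ z) :
    ‖qq κ z * ((ρ z ^ s : ℝ) : ℂ) * a‖ ^ 2 = κ (‖z‖ ^ 2) * ρ z ^ (2 * s) * ‖a‖ ^ 2 := by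
  rw [norm_mul, norm_mul, mul_pow, mul_pow, qq_norm hκ, norm_real, Real.norm_eq_abs, sq_abs,
    mul_comm 2 s, Real.rpow_mul hz.le, Real.rpow_two]

theorem memLp_wt (L : Lv0) {ρ : E N → ℝ} (hρ : Dom ρ) {κ : ℝ → ℝ} (hκ : Kap κ) {s : ℝ}
    (hs : 0 ≤ s) {f : E N → ℂ} (hf : ContinuousOn f (E0 N)) :
    MemLp (fun z => qq κ z * ((ρ z ^ s : ℝ) : ℂ) * f z) 2 (volume.restrict (Op ρ)) :=
  memLp_of_L2 ((L.t1 N (Op ρ) (L.c1 N ρ hρ).2.1 (L.c1 N ρ hρ).2.2.2.1.1).2.2.1 _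
    (((qq_cont hκ).continuousOn.mul (rho_cont hρ hs)).mul hf)) ((L.t3.2 N).1 κ hκ).2.2.1
    zero_nmem_Sh fun z hz => by rw [qq_zero hκ hz, zero_mul, zero_mul]

theorem sm_dzb {w : E N → ℂ} (hw : ContDiffOn ℝ ∞ w (E0 N)) (l : Fin N) :
    ContDiffOn ℝ ∞ (dzb l w) (E0 N) := fun _ hz =>
  (contDiffAt_dzb l (contDiffAt_E0 hw hz)).contDiffWithinAt

theorem sm_dz {w : E N → ℂ} (hw : ContDiffOn ℝ ∞ w (E0 N)) (l : Fin N) :
    ContDiffOn ℝ ∞ (dz l w) (E0 N) := fun _ hz =>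
  (contDiffAt_dz l (contDiffAt_E0 hw hz)).contDiffWithinAt

/-- The derivatives of first and second order. -/
def Dd : Fin N ⊕ Fin N × Fin N → (E N → ℂ) → E N → ℂ
  | .inl l, w => dzb l w
  | .inr p, w => dz p.2 (dzb p.1 w)

theorem sm_Dd {w : E N → ℂ} (hw : ContDiffOn ℝ ∞ w (E0 N)) :
    ∀ i, ContDiffOn ℝ ∞ (Dd i w) (E0 N)
  | .inl l => sm_dzb hw l
  | .inr p => sm_dz (sm_dzb hw p.1) p.2

theorem Dd_add {f g : E N → ℂ} (hf : ContDiffOn ℝ ∞ f (E0 N)) (hg : ContDiffOn ℝ ∞ g (E0 N))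
    {z : E N} (hz : z ≠ 0) : ∀ i, Dd i (fun y => f y + g y) z = Dd i f z + Dd i g z
  | .inl l => dzb_add l (ContDiffAt.da (contDiffAt_E0 hf hz)) (ContDiffAt.da (contDiffAt_E0 hg hz))
  | .inr p => by
    have h : dzb p.1 (fun y => f y + g y) =ᶠ[𝓝 z] fun y => dzb p.1 f y + dzb p.1 g y := by
      filter_upwards [isOpen_E0.mem_nhds hz] with y hy
      exact dzb_add p.1 (ContDiffAt.da (contDiffAt_E0 hf hy)) (ContDiffAt.da (contDiffAt_E0 hg hy))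
    exact (dz_congr h p.2).trans (dz_add p.2 (ContDiffAt.da (contDiffAt_E0 (sm_dzb hf p.1) hz))
      (ContDiffAt.da (contDiffAt_E0 (sm_dzb hg p.1) hz)))

theorem Dd_smul (c : ℂ) {f : E N → ℂ} (hf : ContDiffOn ℝ ∞ f (E0 N))
    {z : E N} (hz : z ≠ 0) : ∀ i, Dd i (fun y => c * f y) z = c * Dd i f z
  | .inl l => dzb_const_mul l c (ContDiffAt.da (contDiffAt_E0 hf hz))
  | .inr p => by
    have h : dzb p.1 (fun y => c * f y) =ᶠ[𝓝 z] fun y => c * dzb p.1 f y := by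
      filter_upwards [isOpen_E0.mem_nhds hz] with y hy
      exact dzb_const_mul p.1 c (ContDiffAt.da (contDiffAt_E0 hf hy))
    exact (dz_congr h p.2).trans
      (dz_const_mul p.2 c (ContDiffAt.da (contDiffAt_E0 (sm_dzb hf p.1) hz)))

/-- The weighted derivatives. -/
def TG (ρ : E N → ℝ) {κ : ℝ → ℝ} (hκ : Kap κ) (s : ℝ) (a : ℤ) (i : Fin N ⊕ Fin N × Fin N) :
    DD N a →ₗ[ℂ] E N → ℂ where
  toFun w z := qq κ z * ((ρ z ^ s : ℝ) : ℂ) * Dd i w.1 z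
  map_add' f g := by
    funext z
    by_cases hz : z = 0
    · subst hz
      simp [qq_zero hκ zero_nmem_Sh]
    · change _ * Dd i (fun y => f.1 y + g.1 y) z = _
      rw [Dd_add f.2.1 g.2.1 hz, Pi.add_apply]
      ring
  map_smul' c f := by
    funext z
    by_cases hz : z = 0
    · subst hz
      simp [qq_zero hκ zero_nmem_Sh]
    · change _ * Dd i (fun y => c * f.1 y) z = c * _
      rw [Dd_smul c f.2.1 hz]
      ring

theorem kap_congr {κ : ℝ → ℝ} (hκ : Kap κ) (f : E N → ℂ) {g g' : E N → ℂ}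
    (h : ∀ z, z ≠ 0 → g z = g' z) :
    ∫ z, (κ (‖z‖ ^ 2) : ℂ) * f z * g z = ∫ z, (κ (‖z‖ ^ 2) : ℂ) * f z * g' z := by
  congr 1
  funext z
  by_cases hz : z = 0
  · rw [kap_zero hκ (hz ▸ zero_nmem_Sh)]
    simp
  · rw [h z hz]

theorem stepA (L : Lv0) {ρ : E N → ℝ} (hρ : Dom ρ) {κ : ℝ → ℝ} (hκ : Kap κ) {s : ℝ} (hs : 0 ≤ s)
    (a : ℤ) {X : Fin N → E N → ℂ} (hX : ∀ l, L2 (E0 N) (X l)) {C : ℝ} (hC : 0 ≤ C)
    (hP : ∀ w : E N → ℂ, ContDiffOn ℝ ∞ w (E0 N) → Hom (E0 N) a 0 w →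
      ‖∑ l, ∫ z, (κ (‖z‖ ^ 2) : ℂ) * X l z * dzb l w z‖ ^ 2 ≤
        C * (∑ l, (∫ z in Op ρ, κ (‖z‖ ^ 2) * ρ z ^ (2 * s) * ‖dzb l w z‖ ^ 2) +
          ∑ l, ∑ i, ∫ z in Op ρ, κ (‖z‖ ^ 2) * ρ z ^ (2 * s) * ‖dz i (dzb l w) z‖ ^ 2)) :
    ∃ v : Fin N ⊕ Fin N × Fin N → E N → ℂ,
      (∀ i, Measurable (v i) ∧ MemLp (v i) 2 (volume.restrict (Op ρ))) ∧
      ∀ w, ContDiffOn ℝ ∞ w (E0 N) → Hom (E0 N) a 0 w →
        ∑ l, ∫ z, (κ (‖z‖ ^ 2) : ℂ) * X l z * dzb l w z =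
          ∑ i, ∫ z in Op ρ, v i z * (qq κ z * ((ρ z ^ s : ℝ) : ℂ) * Dd i w z) := by
  have hO := (L.c1 N ρ hρ).2.1
  let ell : DD N a →ₗ[ℂ] ℂ :=
    { toFun := fun w => ∑ l, ∫ z, (κ (‖z‖ ^ 2) : ℂ) * X l z * dzb l w.1 z
      map_add' := fun f g => by
        rw [← Finset.sum_add_distrib]
        refine Finset.sum_congr rfl fun l _ => ?_
        rw [← integral_add (integrable_kap L hκ (hX l) (sm_dzb f.2.1 l))
          (integrable_kap L hκ (hX l) (sm_dzb g.2.1 l))]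
        simp only [← mul_add]
        exact kap_congr hκ _ fun z hz => Dd_add f.2.1 g.2.1 hz (.inl l)
      map_smul' := fun c f => by
        rw [RingHom.id_apply, smul_eq_mul, Finset.mul_sum]
        refine Finset.sum_congr rfl fun l _ => ?_
        rw [← integral_const_mul]
        simp only [mul_left_comm c]
        exact kap_congr hκ _ fun z hz => Dd_smul c f.2.1 hz (.inl l) }
  obtain ⟨v, hv, hv2⟩ := L.rz.1 (E N) (Fin N ⊕ Fin N × Fin N) (DD N a) (volume.restrict (Op ρ))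
    (TG ρ hκ s a) ell C hC (fun i w => memLp_wt L hρ hκ hs (sm_Dd w.2.1 i).continuousOn)
    (fun w => by
      have e : ∀ i, ∫ z in Op ρ, ‖TG ρ hκ s a i w z‖ ^ 2 =
          ∫ z in Op ρ, κ (‖z‖ ^ 2) * ρ z ^ (2 * s) * ‖Dd i w.1 z‖ ^ 2 := fun i =>
        setIntegral_congr_fun hO.measurableSet fun z hz => norm_wt hκ s _ hz.2
      simp only [e, Fintype.sum_sum_type, Fintype.sum_prod_type]
      exact hP w.1 w.2.1 w.2.2)
  exact ⟨v, hv, fun w hw hw2 => hv2 ⟨w, hw, hw2⟩⟩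

theorem stepB (L : Lv0) {ρ : E N → ℝ} (hρ : Dom ρ) {κ : ℝ → ℝ} (hκ : Kap κ) {s : ℝ} (hs : 0 ≤ s)
    (a b : ℤ) {v : E N → ℂ} (hv : Measurable v) (hv2 : MemLp v 2 (volume.restrict (Op ρ))) :
    ∃ V : E N → ℂ, WLs ρ s V ∧ Hom (E0 N) a b V ∧ ∀ ψ, Test (E0 N) ψ →
      ∫ z, V z * ψ z =
        ∫ z in Op ρ, v z * (qq κ z * ((ρ z ^ s : ℝ) : ℂ) * Pp (-a - N) (-b - N) ψ z) := by
  classical
  obtain ⟨-, hO, -, hc, hρm, -⟩ := L.c1 N ρ hρ
  obtain ⟨t1, t2, -, t4, t5⟩ := L.t4 N a b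
  let u : E N → ℂ := (Op ρ).indicator fun z => v z / qq κ z
  have hu : Measurable u := (hv.div (qq_cont hκ).measurable).indicator hO.measurableSet
  have hρk : Measurable fun z => ((ρ z ^ s : ℝ) : ℂ) := 
    measurable_ofReal.comp (hρm.pow_const s)
  have e1 : ∀ z, Hop κ a b (fun y => ((ρ y ^ s : ℝ) : ℂ) * u y) z = ((ρ z ^ s : ℝ) : ℂ) * Hop κ a b u z :=
    t2 (fun y => ((ρ y ^ s : ℝ) : ℂ)) u (fun c hc z => by simp only [hρ.inv c hc z]) κ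
  have e2 : ∀ z, z ∉ Op ρ → Hop κ a b u z = 0 := by
    intro z hz
    have h := t2 ((Op ρ).indicator fun _ => 1) u (fun c hc0 y => by
      by_cases hy : y ∈ Op ρ
      · rw [indicator_of_mem hy, indicator_of_mem (hc.2 c hc0 y hy)]
      · rw [indicator_of_notMem hy, indicator_of_notMem]
        intro h
        have h2 := hc.2 c⁻¹ (inv_ne_zero hc0) _ h
        rw [inv_smul_smul₀ hc0] at h2
        exact hy h2) κ z
    have e : (fun y => (Op ρ).indicator (fun _ => (1 : ℂ)) y * u y) = u := by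
      funext y
      by_cases hy : y ∈ Op ρ
      · rw [indicator_of_mem hy, one_mul]
      · simp only [u, indicator_of_notMem hy, mul_zero]
    rw [e, indicator_of_notMem hz, zero_mul] at h
    exact h
  have hfin : ∫⁻ z, ENNReal.ofReal (κ (‖z‖ ^ 2) * ‖u z‖ ^ 2) < ⊤ := by
    have h1 := ((memLp_two_iff_integrable_sq_norm hv2.1).1 hv2).2
    rw [hasFiniteIntegral_iff_ofReal (Eventually.of_forall fun _ => sq_nonneg _),
      ← lintegral_indicator hO.measurableSet] at h1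
    refine lt_of_le_of_lt (lintegral_mono fun z => ?_) h1
    by_cases hz : z ∈ Op ρ
    · simp only [u, indicator_of_mem hz]
      refine ENNReal.ofReal_le_ofReal ?_
      rw [norm_div, div_pow, qq_norm hκ]
      by_cases h0 : κ (‖z‖ ^ 2) = 0
      · rw [h0, zero_mul]
        exact sq_nonneg _
      · rw [mul_div_cancel₀ _ h0]
    · simp [u, indicator_of_notMem hz]
  have e3 : (fun y => (κ (‖y‖ ^ 2) : ℂ) * (((ρ y ^ s : ℝ) : ℂ) * u y)) =
      (Op ρ).indicator fun z => v z * (qq κ z * ((ρ z ^ s : ℝ) : ℂ) * 1) := by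
    funext z
    by_cases hz : z ∈ Op ρ
    · simp only [u, indicator_of_mem hz, ← qq_mul hκ z]
      by_cases h0 : qq κ z = 0
      · simp [h0]
      · field_simp
    · simp [u, indicator_of_notMem hz]
  refine ⟨Hop κ a b fun y => ((ρ y ^ s : ℝ) : ℂ) * u y, ⟨(t5 κ hκ _ (hρk.mul hu).aestronglyMeasurable).1,
    Eventually.of_forall fun z hz => ?_, ?_⟩, t1 _, fun ψ hψ => ?_⟩
  · rw [e1, e2 z fun h => not_lt.2 hz h.2, mul_zero]
  · have h1 := (t5 κ hκ u hu.aestronglyMeasurable).2.2 hfin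
    have h2 := ((L.t1 N (E0 N) isOpen_E0 cone_E0.1).1 _ h1).2.2.2.2.2.2 (Op ρ) fun z hz => hz.1
    refine ((L.t1 N (Op ρ) hO hc.1).1 _ h2).2.2.2.2.2.1 _ (Eventually.of_forall fun z hz => ?_)
    have hr : ((ρ z ^ s : ℝ) : ℂ) ≠ 0 := ofReal_ne_zero.2 (Real.rpow_pos_of_pos hz.2 s).ne'
    rw [e1, mul_div_cancel_left₀ _ hr]
  · have h1 := t4 (fun y => (κ (‖y‖ ^ 2) : ℂ) * (((ρ y ^ s : ℝ) : ℂ) * u y)) ψ (Sh N)
      ((L.t3.2 N).1 κ hκ).2.2.1 zero_nmem_Sh (fun z hz => by simp [kap_zero hκ hz])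
      (by
        rw [e3, integrable_indicator_iff hO.measurableSet]
        exact hv2.integrable_mul (memLp_wt L hρ hκ hs continuousOn_const)) hψ
    refine h1.trans ?_
    rw [← integral_indicator hO.measurableSet]
    congr 1
    funext z
    rw [congrFun e3 z]
    by_cases hz : z ∈ Op ρ
    · rw [indicator_of_mem hz, indicator_of_mem hz]
      ring
    · rw [indicator_of_notMem hz, indicator_of_notMem hz, zero_mul]

end DV1

open DV1 in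
theorem dv1 (L : Lv2) (h : StmtDV0) : StmtDV1 := by
  intro N hN ρ φ hρ hφ s hs m X hm hX hX0 hB
  have L0 := L.toLv0
  obtain ⟨κ, hκ⟩ := L0.t3.1
  obtain ⟨j, hj⟩ := Int.eq_ofNat_of_zero_le (show 0 ≤ m + N by omega)
  obtain ⟨C, hC, hP⟩ := h N hN ρ φ hρ hφ κ hκ s hs j X (fun l => (hX l).1) hX0 hB
  obtain ⟨v, hv, hv2⟩ := stepA L0 hρ hκ hs.le (-j) (fun l => (hX l).1) hC hP
  choose A hA1 hA2 hA3 using fun l =>
    DV1.stepB L0 hρ hκ hs.le m (1 - N) (hv (.inl l)).1 (hv (.inl l)).2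
  choose B hB1 hB2 hB3 using fun l i =>
    DV1.stepB L0 hρ hκ hs.le (m + 1) (1 - N) (hv (.inr (l, i))).1 (hv (.inr (l, i))).2
  refine ⟨A, B, fun l => ⟨hA1 l, hA2 l⟩, fun l i => ⟨hB1 l i, hB2 l i⟩, fun ψ hψ => ?_⟩
  have hO := (L0.c1 N ρ hρ).2.1
  have t1 := L0.t1 N (E0 N) isOpen_E0 cone_E0.1
  have hT : ∀ l, Test (E0 N) (dzb l ψ) := fun l => ((t1.2.2.2.1 ψ hψ).2.2.1 l).2
  have hT2 : ∀ l i, Test (E0 N) (dz i (dzb l ψ)) := fun l i => ((t1.2.2.2.1 _ (hT l)).2.2.1 i).1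
  obtain ⟨s1, s2⟩ := (L0.t4 N (-j) 0).2.2.1 ψ hψ
  have i1 : -m - (N : ℤ) = -(j : ℤ) := by omega
  have i2 : -(1 - (N : ℤ)) - N = 0 - 1 := by omega
  have i3 : -(m + 1) - (N : ℤ) = -(j : ℤ) - 1 := by omega
  have : Nontrivial (E N) := Module.nontrivial_of_finrank_pos (R := ℝ) (by rw [finrank_E]; omega)
  have e1 : ∀ l, ∫ z, X l z * dzb l ψ z =
      ∫ z, (κ (‖z‖ ^ 2) : ℂ) * X l z * dzb l (Pp (-j) 0 ψ) z := fun l => by
    have h1 := (L0.t4 N m (1 - N)).2.2.2.1 (fun y => (κ (‖y‖ ^ 2) : ℂ) * X l y) (dzb l ψ) (Sh N)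
      ((L0.t3.2 N).1 κ hκ).2.2.1 zero_nmem_Sh (fun z hz => by simp [kap_zero hκ hz])
      (by simpa using integrable_kap L0 hκ (hX l).1 (contDiffOn_const (c := 1))) (hT l)
    rw [i1, i2] at h1
    have hm := (t1.1 _ (hX l).1).2.1
    rw [restrict_compl_singleton] at hm
    rw [kap_congr hκ (X l) fun z hz => (s2 l z hz).2, ← h1]
    refine integral_congr_ae ?_
    filter_upwards [((L0.t4 N m (1 - N)).2.2.2.2 κ hκ (X l) hm).2.1 (by omega)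
      (((L0.t2 N m (1 - N)).1 (E0 N) isOpen_E0 cone_E0).1 _ (hX l).2)] with z hz
    rw [← hz]
    rfl
  have e2 : ∀ l i z, z ≠ 0 → dz i (dzb l (Pp (-j) 0 ψ)) z =
      Pp (-(j : ℤ) - 1) (0 - 1) (dz i (dzb l ψ)) z := fun l i z hz => by
    rw [← (((L0.t4 N (-j) (0 - 1)).2.2.1 _ (hT l)).2 i z hz).1]
    refine dz_congr ?_ i
    filter_upwards [isOpen_E0.mem_nhds hz] with y hy
    exact (s2 l y hy).2
  rw [Dv, Lam, Finset.sum_congr rfl fun l _ => e1 l, hv2 _ s1 ((L0.t4 N (-j) 0).1 ψ),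
    Fintype.sum_sum_type, Fintype.sum_prod_type]
  congr 1
  · refine Finset.sum_congr rfl fun l _ => ?_
    rw [hA3 l _ (hT l), i1, i2]
    exact setIntegral_congr_fun hO.measurableSet fun z hz => by
      simp only [Dd, (s2 l z hz.1).2]
  · refine Finset.sum_congr rfl fun l _ => Finset.sum_congr rfl fun i _ => ?_
    rw [hB3 l i _ (hT2 l i), i3, i2]
    exact setIntegral_congr_fun hO.measurableSet fun z hz => by
      simp only [Dd, e2 l i z hz.1]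

end

end Pool.Agent.MP_fcd29e_an.H70
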