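import Pool.Agent.MP_fcd29e_an.H81.Spec

/-!
Scaling by a complex number, and the inversion of the plane.
-/

set_option autoImplicit false

open Pool.Agent.MP_fcd29e_an.H81 MeasureTheory Complex Set Filter Topology Metric
open scoped ContDiff ComplexConjugate ENNReal NNReal

namespace Pool.Agent.MP_fcd29e_an.H70

section general

variable {V : Type*} [NormedAddCommGroup V] [NormedSpace ℝ V] [NormedSpace ℂ V]
  [IsScalarTower ℝ ℂ V] [FiniteDimensional ℝ V] [MeasurableSpace V] [BorelSpace V]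

omit [FiniteDimensional ℝ V] [MeasurableSpace V] [BorelSpace V] in
theorem T0_det (c : ℂ) :
    LinearMap.det ((c • LinearMap.id : V →ₗ[ℂ] V).restrictScalars ℝ) =
      ‖c‖ ^ (2 * Module.finrank ℂ V) := by
  rw [LinearMap.det_restrictScalars, LinearMap.det_smul, LinearMap.det_id, mul_one,
    Algebra.norm_complex_apply, map_pow, Complex.normSq_eq_norm_sq, ← pow_mul]

theorem T0_map (μ : Measure V) [μ.IsAddHaarMeasure] {c : ℂ} (hc : c ≠ 0) :
    Measure.map (fun x : V => c • x) μ =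
      ENNReal.ofReal (‖c‖ ^ (2 * Module.finrank ℂ V))⁻¹ • μ := by
  have hp : 0 < ‖c‖ ^ (2 * Module.finrank ℂ V) := pow_pos (norm_pos_iff.2 hc) _
  have h := Measure.map_linearMap_addHaar_eq_smul_addHaar μ
    (f := (c • LinearMap.id : V →ₗ[ℂ] V).restrictScalars ℝ) (by rw [T0_det]; exact hp.ne')
  rw [T0_det, abs_of_pos (inv_pos.2 hp)] at h
  exact h

theorem T0_all (μ : Measure V) [μ.IsAddHaarMeasure] {c : ℂ} (hc : c ≠ 0) (n : ℕ)
    (hn : Module.finrank ℂ V = n) :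
    (∀ f : V → ℂ, ∫ x, f (c • x) ∂μ = ((‖c‖ ^ (2 * n) : ℝ) : ℂ)⁻¹ * ∫ x, f x ∂μ) ∧
    (∀ f : V → ℝ≥0∞, ∫⁻ x, f (c • x) ∂μ = ENNReal.ofReal (‖c‖ ^ (2 * n))⁻¹ * ∫⁻ x, f x ∂μ) ∧
    (∀ f : V → ℂ, Integrable f μ → Integrable (fun x => f (c • x)) μ) ∧
    Measure.QuasiMeasurePreserving (fun x : V => c • x) μ μ := by
  have hm := T0_map μ hc
  rw [hn] at hm
  have hp : 0 < ‖c‖ ^ (2 * n) := pow_pos (norm_pos_iff.2 hc) _
  let e : V ≃ᵐ V := (Homeomorph.smulOfNeZero c hc).toMeasurableEquiv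
  have he : (e : V → V) = fun x => c • x := rfl
  refine ⟨fun f => ?_, fun f => ?_, fun f hf => ?_, ?_⟩
  · have h := integral_map_equiv (μ := μ) e f
    rw [he, hm, integral_smul_measure, ENNReal.toReal_ofReal (inv_pos.2 hp).le] at h
    rw [← h, Complex.real_smul, Complex.ofReal_inv]
  · have h := lintegral_map_equiv (μ := μ) f e
    rw [he, hm, lintegral_smul_measure] at h
    rw [← h, smul_eq_mul]
  · have h := integrable_map_equiv (μ := μ) e f
    rw [he, hm] at h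
    exact h.1 (hf.smul_measure ENNReal.ofReal_ne_top)
  · refine ⟨e.measurable, ?_⟩
    rw [hm]
    exact Measure.smul_absolutelyContinuous

end general

theorem T0_inv_deriv (x : ℂ) (hx : x ∈ ({0}ᶜ : Set ℂ)) :
    HasFDerivWithinAt (fun y : ℂ => y⁻¹) ((-(x ^ 2)⁻¹ : ℂ) • (1 : ℂ →L[ℝ] ℂ)) ({0}ᶜ : Set ℂ) x :=
  (hasDerivAt_inv (by simpa using hx)).complexToReal_fderiv.hasFDerivWithinAt

theorem T0_inv_det (x : ℂ) :
    |((-(x ^ 2)⁻¹ : ℂ) • (1 : ℂ →L[ℝ] ℂ)).det| = ((‖x‖ ^ 2) ^ 2)⁻¹ := by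
  have h := T0_det (V := ℂ) (-(x ^ 2)⁻¹)
  have h2 : ((-(x ^ 2)⁻¹ : ℂ) • (1 : ℂ →L[ℝ] ℂ)).det =
      LinearMap.det (((-(x ^ 2)⁻¹ : ℂ) • LinearMap.id : ℂ →ₗ[ℂ] ℂ).restrictScalars ℝ) := rfl
  rw [h2, h, Module.finrank_self, norm_neg, norm_inv, norm_pow, abs_of_nonneg (by positivity),
    mul_one, inv_pow]

theorem T0_inv_image : (fun y : ℂ => y⁻¹) '' ({0}ᶜ : Set ℂ) = {0}ᶜ := by
  ext y
  constructor
  · rintro ⟨x, hx, rfl⟩
    simpa using hx
  · intro hy
    exact ⟨y⁻¹, by simpa using hy, inv_inv y⟩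

theorem T0_restrict : (volume : Measure ℂ).restrict ({0}ᶜ : Set ℂ) = volume :=
  Measure.restrict_eq_self_of_ae_mem (Measure.ae_ne volume 0)

theorem t0 : StmtT0 := by
  have hs : MeasurableSet ({0}ᶜ : Set ℂ) := (measurableSet_singleton 0).compl
  have hi : InjOn (fun y : ℂ => y⁻¹) ({0}ᶜ : Set ℂ) := inv_injective.injOn
  refine ⟨fun N c hc => T0_all volume hc N (by simp), fun a ha => ?_, fun h => ?_, fun h => ?_⟩
  · have H := T0_all (V := ℂ) volume ha 1 (Module.finrank_self ℂ)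
    simp only [smul_eq_mul, mul_one] at H
    exact ⟨H.1, H.2.1⟩
  · have H := integral_image_eq_integral_abs_det_fderiv_smul volume hs T0_inv_deriv hi
      (fun c : ℂ => ((‖c‖ ^ 2 : ℝ) : ℂ)⁻¹ * h c)
    rw [T0_inv_image, T0_restrict] at H
    rw [H]
    refine integral_congr_ae ?_
    filter_upwards [Measure.ae_ne volume (0 : ℂ)] with x hx
    have hx' : ((‖x‖ : ℝ) : ℂ) ≠ 0 := by simpa using hx
    rw [T0_inv_det, Complex.real_smul, ← mul_assoc, norm_inv]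
    congr 1
    push_cast
    field_simp
  · have H := lintegral_image_eq_lintegral_abs_det_fderiv_mul volume hs T0_inv_deriv hi
      (fun c : ℂ => ENNReal.ofReal (‖c‖ ^ 2)⁻¹ * h c)
    rw [T0_inv_image, T0_restrict] at H
    rw [H]
    refine lintegral_congr_ae ?_
    filter_upwards [Measure.ae_ne volume (0 : ℂ)] with x hx
    have hx' : ‖x‖ ≠ 0 := by simpa using hx
    rw [T0_inv_det, ← mul_assoc, ← ENNReal.ofReal_mul (by positivity), norm_inv]
    congr 2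
    field_simp

end Pool.Agent.MP_fcd29e_an.H70
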